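import Pool.Agent.Lib.MP_03ceb7_al.Strebel

/-!
# The operators of a group algebra on the functions on a finite set
-/

open Finset MonoidAlgebra

set_option linter.unusedSectionVars false

namespace Pool.Agent.MP_03ceb7_al

section Indep

/-- A symmetric relation of bounded degree has a large independent set. -/
theorem exists_indep {V : Type*} [DecidableEq V] (R : V → V → Prop) (D : ℕ)
    (hrefl : ∀ v, R v v) (hsymm : ∀ v w, R v w → R w v) (n : ℕ) :
    ∀ B : Finset V, B.card ≤ n →
      (∀ v ∈ B, ∀ T : Finset V, (∀ w ∈ T, R v w) → T.card ≤ D) →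
      ∃ B' ⊆ B, (∀ v ∈ B', ∀ w ∈ B', v ≠ w → ¬ R v w) ∧ B.card ≤ D * B'.card := by
  classical
  induction n with
  | zero =>
    intro B hB _
    have h0 : B = ∅ := Finset.card_eq_zero.1 (Nat.le_zero.1 hB)
    subst h0
    exact ⟨∅, Finset.Subset.refl _, by simp, by simp⟩
  | succ n ih =>
    intro B hB hR
    rcases B.eq_empty_or_nonempty with h0 | ⟨v, hv⟩
    · subst h0
      exact ⟨∅, Finset.Subset.refl _, by simp, by simp⟩
    · have hlt : (B.filter fun w => ¬ R v w).card < B.card := by
        refine Finset.card_lt_card ⟨Finset.filter_subset _ _, fun h => ?_⟩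
        have h1 := h hv
        rw [Finset.mem_filter] at h1
        exact h1.2 (hrefl v)
      obtain ⟨B', hB', hind, hcard⟩ := ih (B.filter fun w => ¬ R v w) (by omega)
        (fun w hw => hR w (Finset.mem_filter.1 hw).1)
      have hvB' : v ∉ B' := fun h => (Finset.mem_filter.1 (hB' h)).2 (hrefl v)
      refine ⟨insert v B', ?_, ?_, ?_⟩
      · intro w hw
        rw [Finset.mem_insert] at hw
        rcases hw with rfl | hw
        · exact hv
        · exact (Finset.mem_filter.1 (hB' hw)).1
      · intro a ha b hb hab
        rw [Finset.mem_insert] at ha hb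
        rcases ha with rfl | ha <;> rcases hb with rfl | hb
        · exact absurd rfl hab
        · exact (Finset.mem_filter.1 (hB' hb)).2
        · exact fun h => (Finset.mem_filter.1 (hB' ha)).2 (hsymm _ _ h)
        · exact hind a ha b hb hab
      · rw [Finset.card_insert_of_notMem hvB']
        have h1 : (B.filter fun w => R v w).card ≤ D :=
          hR v hv _ fun w hw => (Finset.mem_filter.1 hw).2
        have h2 : (B.filter fun w => R v w).card + (B.filter fun w => ¬ R v w).card = B.card :=
          Finset.card_filter_add_card_filter_not _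
        rw [mul_add, mul_one]
        omega

end Indep

variable {G : Type*} [Group G] {k : Type*} [Field k] {A : Type*} [Ring A] [Algebra k A]
variable {V : Type*} [Fintype V] [DecidableEq V]

variable (k) in
/-- The operator of an element of the group algebra on the functions on `V`. -/
noncomputable def op (σ : G → Equiv.Perm V) (a : MonoidAlgebra A G) : (V → A) →ₗ[k] (V → A) where
  toFun f w := a.coeff.sum fun g c => c * f ((σ g).symm w)
  map_add' f f' := by
    funext w
    rw [Pi.add_apply, ← Finsupp.sum_add]
    refine Finsupp.sum_congr fun g _ => ?_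
    rw [Pi.add_apply, mul_add]
  map_smul' r f := by
    funext w
    rw [RingHom.id_apply, Pi.smul_apply, Finsupp.smul_sum]
    refine Finsupp.sum_congr fun g _ => ?_
    rw [Pi.smul_apply, mul_smul_comm]

theorem op_apply (σ : G → Equiv.Perm V) (a : MonoidAlgebra A G) (f : V → A) (w : V) :
    op k σ a f w = a.coeff.sum fun g c => c * f ((σ g).symm w) := rfl

theorem op_add (σ : G → Equiv.Perm V) (a b : MonoidAlgebra A G) (f : V → A) :
    op k σ (a + b) f = op k σ a f + op k σ b f := by
  funext w
  rw [Pi.add_apply, op_apply, op_apply, op_apply, MonoidAlgebra.coeff_add,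
    Finsupp.sum_add_index' (by simp) (by intros; rw [add_mul])]

theorem op_zero (σ : G → Equiv.Perm V) (f : V → A) :
    op k σ (0 : MonoidAlgebra A G) f = 0 := by
  funext w
  rw [op_apply, MonoidAlgebra.coeff_zero, Finsupp.sum_zero_index, Pi.zero_apply]

theorem op_single (σ : G → Equiv.Perm V) (g : G) (c : A) (v : V) (b : A) :
    op k σ (single g c) (Pi.single v b) = Pi.single (σ g v) (c * b) := by
  funext w
  rw [op_apply, MonoidAlgebra.coeff_single, Finsupp.sum_single_index (by rw [zero_mul])]
  by_cases hw : w = σ g v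
  · subst hw
    rw [Pi.single_eq_same, Equiv.symm_apply_apply, Pi.single_eq_same]
  · rw [Pi.single_eq_of_ne hw, Pi.single_eq_of_ne, mul_zero]
    intro h
    exact hw (by rw [← h, Equiv.apply_symm_apply])

theorem op_sum {ι : Type*} (σ : G → Equiv.Perm V) (s : Finset ι) (x : ι → MonoidAlgebra A G)
    (f : V → A) : op k σ (∑ i ∈ s, x i) f = ∑ i ∈ s, op k σ (x i) f := by
  classical
  induction s using Finset.induction_on with
  | empty => rw [Finset.sum_empty, Finset.sum_empty, op_zero]
  | insert a s ha ih => rw [Finset.sum_insert ha, Finset.sum_insert ha, op_add, ih]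

theorem eq_sum_single (x : MonoidAlgebra A G) :
    x = ∑ g ∈ x.coeff.support, single g (x.coeff g) := by
  apply coeff_injective
  rw [MonoidAlgebra.coeff_sum]
  exact (Finsupp.sum_single x.coeff).symm

theorem op_eq_sum (σ : G → Equiv.Perm V) (a : MonoidAlgebra A G) (v : V) (b : A) :
    op k σ a (Pi.single v b) = ∑ g ∈ a.coeff.support, Pi.single (σ g v) (a.coeff g * b) := by
  conv_lhs => rw [eq_sum_single a]
  rw [op_sum]
  exact Finset.sum_congr rfl fun g _ => op_single σ g _ v b

/-- The operator is multiplicative at the points where `σ` is. -/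
theorem op_mul (σ : G → Equiv.Perm V) (x y : MonoidAlgebra A G) (v : V) (b : A)
    (h : ∀ g ∈ x.coeff.support, ∀ g' ∈ y.coeff.support, σ (g * g') v = σ g (σ g' v)) :
    op k σ x (op k σ y (Pi.single v b)) = op k σ (x * y) (Pi.single v b) := by
  have h1 : x * y = ∑ g ∈ x.coeff.support, ∑ g' ∈ y.coeff.support,
      single (g * g') (x.coeff g * y.coeff g') := by
    conv_lhs => rw [eq_sum_single x, eq_sum_single y]
    rw [Finset.sum_mul_sum]
    exact Finset.sum_congr rfl fun g _ => Finset.sum_congr rfl fun g' _ =>
      MonoidAlgebra.single_mul_single _ _ _ _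
  have h2 : op k σ (x * y) (Pi.single v b) = ∑ g ∈ x.coeff.support, ∑ g' ∈ y.coeff.support,
      Pi.single (σ (g * g') v) (x.coeff g * y.coeff g' * b) := by
    rw [h1, op_sum]
    refine Finset.sum_congr rfl fun g _ => ?_
    rw [op_sum]
    exact Finset.sum_congr rfl fun g' _ => op_single σ _ _ v b
  rw [h2, op_eq_sum σ y, map_sum, Finset.sum_comm]
  refine Finset.sum_congr rfl fun g' hg' => ?_
  rw [op_eq_sum]
  refine Finset.sum_congr rfl fun g hg => ?_
  rw [h g hg g' hg', mul_assoc]

theorem op_one (σ : G → Equiv.Perm V) {v : V} (h : σ 1 v = v) (b : A) :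
    op k σ (1 : MonoidAlgebra A G) (Pi.single v b) = Pi.single v b := by
  rw [MonoidAlgebra.one_def, op_single, h, one_mul]

theorem op_sub (σ : G → Equiv.Perm V) (a b : MonoidAlgebra A G) (f : V → A) :
    op k σ (a - b) f = op k σ a f - op k σ b f := by
  have h := op_add (k := k) σ (a - b) b f
  rw [sub_add_cancel] at h
  rw [h, add_sub_cancel_right]

/-- The rank of `1 - op y * op x`: if `x * y = 1` then it is at most `dim A` times the number of points
where `σ` is not multiplicative on the supports. -/
theorem finrank_le [Module.Finite k A] (σ : G → Equiv.Perm V) {x y : MonoidAlgebra A G}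
    (hxy : x * y = 1) (bad : Finset V)
    (h1 : ∀ v ∉ bad, σ 1 v = v)
    (h : ∀ v ∉ bad, ∀ g ∈ x.coeff.support, ∀ g' ∈ y.coeff.support, σ (g * g') v = σ g (σ g' v)) :
    Module.finrank k (LinearMap.range (LinearMap.id - (op k σ y).comp (op k σ x))) ≤
      bad.card * Module.finrank k A := by
  classical
  set W : Type _ := {v : V // v ∉ bad} → A
  -- extension by zero
  let ι : ({v : V // v ∉ bad} → A) →ₗ[k] (V → A) :=
    { toFun := fun f v => if hv : v ∈ bad then 0 else f ⟨v, hv⟩
      map_add' := fun f g => by
        funext v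
        by_cases hv : v ∈ bad <;> simp [hv]
      map_smul' := fun r f => by
        funext v
        by_cases hv : v ∈ bad <;> simp [hv] }
  have hι : Function.Injective ι := by
    intro f g hfg
    funext v
    have h2 := congrFun hfg v.1
    simpa [ι, v.2] using h2
  have hιs : ∀ f, ι f = ∑ v : {v : V // v ∉ bad}, Pi.single v.1 (f v) := by
    intro f
    funext w
    rw [Finset.sum_apply]
    by_cases hw : w ∈ bad
    · rw [Finset.sum_eq_zero]
      · simp [ι, hw]
      · intro v _
        rw [Pi.single_eq_of_ne]
        intro h2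
        exact v.2 (h2 ▸ hw)
    · rw [Finset.sum_eq_single ⟨w, hw⟩]
      · rw [Pi.single_eq_same]
        simp [ι, hw]
      · intro v _ hv
        rw [Pi.single_eq_of_ne]
        intro h2
        exact hv (Subtype.ext h2.symm)
      · intro h2
        exact absurd (Finset.mem_univ _) h2
  have hXY : ∀ f, op k σ x (op k σ y (ι f)) = ι f := by
    intro f
    rw [hιs, map_sum, map_sum]
    refine Finset.sum_congr rfl fun v _ => ?_
    rw [op_mul σ x y v.1 _ (h v.1 v.2), hxy, op_one σ (h1 v.1 v.2)]
  have hinj : Function.Injective ((op k σ y).comp ι) := by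
    intro f g hfg
    apply hι
    rw [← hXY f, ← hXY g]
    exact congrArg _ hfg
  have hker : LinearMap.range ((op k σ y).comp ι) ≤
      LinearMap.ker (LinearMap.id - (op k σ y).comp (op k σ x)) := by
    rintro _ ⟨f, rfl⟩
    rw [LinearMap.mem_ker, LinearMap.sub_apply, LinearMap.id_apply, LinearMap.comp_apply,
      LinearMap.comp_apply, hXY, sub_self]
  have h3 := LinearMap.finrank_range_of_inj hinj
  have h4 := Submodule.finrank_mono hker
  have h5 := LinearMap.finrank_range_add_finrank_ker
    (LinearMap.id - (op k σ y).comp (op k σ x) : (V → A) →ₗ[k] (V → A))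
  have h6 : Module.finrank k (V → A) = Fintype.card V * Module.finrank k A := by
    rw [Module.finrank_pi_fintype, Finset.sum_const, Finset.card_univ, smul_eq_mul]
  have h7 : Module.finrank k ({v : V // v ∉ bad} → A) =
      Fintype.card {v : V // v ∉ bad} * Module.finrank k A := by
    rw [Module.finrank_pi_fintype, Finset.sum_const, Finset.card_univ, smul_eq_mul]
  have h8 : Fintype.card {v : V // v ∉ bad} + bad.card = Fintype.card V := by
    rw [Fintype.card_subtype]
    have h9 : (Finset.univ.filter fun v => v ∉ bad) = badᶜ := by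
      ext v; simp
    rw [h9, Finset.card_compl]
    exact Nat.sub_add_cancel (Finset.card_le_univ _)
  rw [h3, h7] at h4
  rw [h6, ← h8, add_mul] at h5
  omega

/-- Vectors `E (single v 1) = op e (single v 1) ≠ 0`, `v ∈ B`: the rank of `E` is at least
`|B| / (1 + |supp e| ^ 2)`. -/
theorem card_le_finrank [Module.Finite k A] (σ : G → Equiv.Perm V) (e : MonoidAlgebra A G)
    (E : (V → A) →ₗ[k] (V → A)) (B : Finset V)
    (hB : ∀ v ∈ B, E (Pi.single v 1) = op k σ e (Pi.single v 1) ∧
      op k σ e (Pi.single v (1 : A)) ≠ 0) :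
    B.card ≤ (1 + e.coeff.support.card ^ 2) * Module.finrank k (LinearMap.range E) := by
  classical
  set S := e.coeff.support with hS
  -- the footprints
  let fp : V → Finset V := fun v => S.image fun g => σ g v
  have hfp : ∀ v w, op k σ e (Pi.single v (1 : A)) w ≠ 0 → w ∈ fp v := by
    intro v w hw
    by_contra hcon
    apply hw
    rw [op_eq_sum, Finset.sum_apply]
    refine Finset.sum_eq_zero fun g hg => ?_
    rw [Pi.single_eq_of_ne]
    intro h
    exact hcon (Finset.mem_image.2 ⟨g, hg, h.symm⟩)
  let R : V → V → Prop := fun v w => v = w ∨ ∃ g ∈ S, ∃ g' ∈ S, σ g v = σ g' w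
  obtain ⟨B', hB', hind, hcard⟩ := exists_indep R (1 + S.card ^ 2) (fun v => Or.inl rfl)
    (fun v w h => by
      rcases h with h | ⟨g, hg, g', hg', h⟩
      · exact Or.inl h.symm
      · exact Or.inr ⟨g', hg', g, hg, h.symm⟩) B.card B le_rfl (fun v _ T hT => by
      have h1 : T ⊆ insert v ((S ×ˢ S).image fun q => (σ q.2).symm (σ q.1 v)) := by
        intro w hw
        rw [Finset.mem_insert]
        rcases hT w hw with h | ⟨g, hg, g', hg', h⟩
        · exact Or.inl h.symm
        · refine Or.inr (Finset.mem_image.2 ⟨(g, g'), Finset.mem_product.2 ⟨hg, hg'⟩, ?_⟩)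
          rw [h, Equiv.symm_apply_apply]
      refine (Finset.card_le_card h1).trans ((Finset.card_insert_le _ _).trans ?_)
      have h2 : ((S ×ˢ S).image fun q => (σ q.2).symm (σ q.1 v)).card ≤ S.card ^ 2 := by
        refine Finset.card_image_le.trans ?_
        rw [Finset.card_product, sq]
      omega)
  refine hcard.trans (Nat.mul_le_mul_left _ ?_)
  -- linear independence
  have hli : LinearIndependent k (fun v : B' => (⟨E (Pi.single v.1 1), LinearMap.mem_range_self _ _⟩ :
      LinearMap.range E)) := by
    refine LinearIndependent.of_comp (LinearMap.range E).subtype ?_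
    rw [linearIndependent_iff']
    intro s c hc v hv
    obtain ⟨w, hw⟩ : ∃ w, op k σ e (Pi.single v.1 (1 : A)) w ≠ 0 := by
      by_contra hcon
      push Not at hcon
      exact (hB v.1 (hB' v.2)).2 (funext hcon)
    have h1 := congrFun hc w
    rw [Finset.sum_apply, Finset.sum_eq_single v] at h1
    · simp only [Function.comp_apply, Submodule.subtype_apply, Pi.smul_apply, Pi.zero_apply] at h1
      rw [(hB v.1 (hB' v.2)).1] at h1
      exact (smul_eq_zero.1 h1).resolve_right hw
    · intro v' _ hv'
      simp only [Function.comp_apply, Submodule.subtype_apply, Pi.smul_apply]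
      rw [(hB v'.1 (hB' v'.2)).1]
      have h2 : op k σ e (Pi.single v'.1 (1 : A)) w = 0 := by
        by_contra h3
        have h4 := hfp _ _ h3
        have h5 := hfp _ _ hw
        obtain ⟨g, hg, hgw⟩ := Finset.mem_image.1 h4
        obtain ⟨g', hg', hgw'⟩ := Finset.mem_image.1 h5
        exact hind v'.1 v'.2 v.1 v.2 (fun h => hv' (Subtype.ext h))
          (Or.inr ⟨g, hg, g', hg', hgw.trans hgw'.symm⟩)
      rw [h2, smul_zero]
    · intro h2
      exact absurd hv h2
  have h1 := hli.fintype_card_le_finrank
  rwa [Fintype.card_coe] at h1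

end Pool.Agent.MP_03ceb7_al
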