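import Pool.Agent.Lib.MP_03ceb7_al.Approx

/-!
# Direct finiteness for groups which are sofic up to locally `p`-indicable stabilisers
-/

open Finset MonoidAlgebra

set_option linter.unusedSectionVars false

namespace Pool.Agent.MP_03ceb7_al

/-- The group `G` acts approximately on finite sets, with locally `p`-indicable stabilisers: for every
finite set `F` and `ε > 0` there are a nonempty finite set `V` and permutations `σ g` of `V` such that for
all points `v` outside of a set of at most `ε |V|` points: `σ (g * h) v = σ g (σ h v)` for `g, h ∈ F`, and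
the elements of `F` which fix `v` are the elements of `F` in a locally `p`-indicable subgroup of `G`. -/
def Approximable (p : ℕ) (G : Type*) [Group G] : Prop :=
  ∀ (F : Finset G) (ε : ℝ), 0 < ε →
    ∃ (n : ℕ) (σ : G → Equiv.Perm (Fin n)) (bad : Finset (Fin n)), 0 < n ∧ (bad.card : ℝ) ≤ ε * n ∧
      ∀ v ∉ bad, (∀ g ∈ F, ∀ h ∈ F, σ (g * h) v = σ g (σ h v)) ∧
        ∃ H : Subgroup G, LocallyIndicable p H ∧ ∀ g ∈ F, (σ g v = v ↔ g ∈ H)

variable {G : Type*} [Group G] {k : Type*} [Field k] {A : Type*} [Ring A] [Algebra k A]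

/-- The image of `e * single s c` in `K[G/H]` vanishes if the operator of `e` kills the point `σ s v`. -/
theorem pr_eq_zero {V : Type*} [Fintype V] [DecidableEq V] (σ : G → Equiv.Perm V)
    (e : MonoidAlgebra A G) (H : Subgroup G) (s : G) (v : V)
    (h : ∀ u ∈ e.coeff.support, ∀ u' ∈ e.coeff.support, (QuotientGroup.mk (u * s) : G ⧸ H) =
      QuotientGroup.mk (u' * s) ↔ σ u (σ s v) = σ u' (σ s v))
    (he : op k σ e (Pi.single (σ s v) (1 : A)) = 0) (c : A) : pr H (e * single s c) = 0 := by
  classical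
  have h1 : pr H (e * single s c) = ∑ u ∈ e.coeff.support,
      Finsupp.single (QuotientGroup.mk (u * s)) (e.coeff u * c) := by
    conv_lhs => rw [eq_sum_single e, Finset.sum_mul]
    rw [pr, MonoidAlgebra.coeff_sum, Finsupp.mapDomain_finsetSum]
    refine Finset.sum_congr rfl fun u _ => ?_
    rw [MonoidAlgebra.single_mul_single, MonoidAlgebra.coeff_single, Finsupp.mapDomain_single]
  rw [h1]
  ext q
  rw [Finsupp.finsetSum_apply, Finsupp.zero_apply]
  simp only [Finsupp.single_apply]
  rw [← Finset.sum_filter]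
  rcases (e.coeff.support.filter fun u => (QuotientGroup.mk (u * s) : G ⧸ H) = q).eq_empty_or_nonempty
    with h0 | ⟨u₀, hu₀⟩
  · rw [h0, Finset.sum_empty]
  · rw [Finset.mem_filter] at hu₀
    have h2 := congrFun he (σ u₀ (σ s v))
    rw [op_eq_sum, Finset.sum_apply, Pi.zero_apply] at h2
    simp only [Pi.single_apply, mul_one] at h2
    rw [← Finset.sum_filter] at h2
    rw [← Finset.sum_mul]
    have h3 : (e.coeff.support.filter fun u => (QuotientGroup.mk (u * s) : G ⧸ H) = q) =
        e.coeff.support.filter fun u => σ u₀ (σ s v) = σ u (σ s v) := by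
      ext u
      rw [Finset.mem_filter, Finset.mem_filter]
      refine and_congr_right fun hu => ?_
      rw [← hu₀.2, h u hu u₀ hu₀.1, eq_comm]
    rw [h3, h2, zero_mul]

/-- The hypothesis of the main lemma for `1 - e`. -/
theorem hyp_one_sub (e : MonoidAlgebra A G) (H : Subgroup G)
    (h : ∀ s ∈ e.coeff.support, ∀ c : A, pr H (e * single s c) = 0) :
    Hyp (1 - e) H e.coeff.support := by
  intro c hc h1
  rw [sub_mul, one_mul, pr_sub] at h1
  have h2 : pr H (e * c) = 0 := by
    conv_lhs => rw [eq_sum_single c, Finset.mul_sum]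
    rw [pr, MonoidAlgebra.coeff_sum, Finsupp.mapDomain_finsetSum]
    refine Finset.sum_eq_zero fun g hg => ?_
    obtain ⟨s, hs, hgs⟩ := hc g hg
    have h3 : single g (c.coeff g) = single s (c.coeff g) * single (s⁻¹ * g) (1 : A) := by
      rw [MonoidAlgebra.single_mul_single, mul_one, mul_inv_cancel_left]
    have h4 : s⁻¹ * g ∈ H := by rw [← QuotientGroup.eq, hgs]
    have h5 := pr_mul_single_mem H (e * single s (c.coeff g)) h4
    rw [mul_assoc, ← h3, h s hs] at h5
    exact h5
  rwa [h2, sub_zero] at h1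

/-- Direct finiteness of the group algebra. -/
theorem directlyFinite {p : ℕ} [Fact p.Prime] [CharP k p] [Module.Finite k A]
    (hG : Approximable p G) {x y : MonoidAlgebra A G} (hxy : x * y = 1) : y * x = 1 := by
  classical
  rcases subsingleton_or_nontrivial A with hA | hA
  · have : Subsingleton (MonoidAlgebra A G) := MonoidAlgebra.coeff_injective.subsingleton
    exact Subsingleton.elim _ _
  have : CharP A p := charP_of_injective_algebraMap (algebraMap k A).injective p
  by_contra hne
  set e : MonoidAlgebra A G := 1 - y * x with he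
  have he0 : e ≠ 0 := fun h => hne (by rw [he, sub_eq_zero] at h; exact h.symm)
  set S := e.coeff.support with hS
  set U : Finset G := insert 1 (x.coeff.support ∪ y.coeff.support ∪ S ∪
    Finset.image₂ (fun a b => a * b) S S) with hU
  set F : Finset G := U ∪ U.image (fun u => u⁻¹) ∪ Finset.image₂ (fun a b => a⁻¹ * b) U U with hF
  have hUF : ∀ u ∈ U, u ∈ F := fun u hu => by
    rw [hF, Finset.mem_union, Finset.mem_union]; exact Or.inl (Or.inl hu)
  have hUF' : ∀ u ∈ U, u⁻¹ ∈ F := fun u hu => by
    rw [hF, Finset.mem_union, Finset.mem_union]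
    exact Or.inl (Or.inr (Finset.mem_image_of_mem _ hu))
  have hUF'' : ∀ u ∈ U, ∀ u' ∈ U, u⁻¹ * u' ∈ F := fun u hu u' hu' => by
    rw [hF, Finset.mem_union]
    exact Or.inr (Finset.mem_image₂_of_mem hu hu')
  have h1U : (1 : G) ∈ U := Finset.mem_insert_self _ _
  have hxU : ∀ g ∈ x.coeff.support, g ∈ U := fun g hg => by
    rw [hU]; simp only [Finset.mem_insert, Finset.mem_union]; tauto
  have hyU : ∀ g ∈ y.coeff.support, g ∈ U := fun g hg => by
    rw [hU]; simp only [Finset.mem_insert, Finset.mem_union]; tauto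
  have hSU : ∀ g ∈ S, g ∈ U := fun g hg => by
    rw [hU]; simp only [Finset.mem_insert, Finset.mem_union]; tauto
  have hSSU : ∀ g ∈ S, ∀ g' ∈ S, g * g' ∈ U := fun g hg g' hg' => by
    rw [hU, Finset.mem_insert, Finset.mem_union]
    exact Or.inr (Or.inr (Finset.mem_image₂_of_mem hg hg'))
  set m := S.card with hm
  set d := Module.finrank k A with hd
  set D : ℕ := (1 + m) * (1 + (1 + m ^ 2) * d) with hD
  obtain ⟨n, σ, bad, hn, hbad, hgood⟩ := hG F (1 / (2 * D)) (by positivity)
  have hDbad : D * bad.card < n := by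
    have h1 : (D : ℝ) * bad.card ≤ n / 2 := by
      calc (D : ℝ) * bad.card ≤ D * (1 / (2 * D) * n) := by gcongr
        _ = n / 2 := by
          have : (D : ℝ) ≠ 0 := by positivity
          field_simp
    have h2 : (0 : ℝ) < n := by exact_mod_cast hn
    have h3 : (D : ℝ) * bad.card < n := by linarith
    exact_mod_cast h3
  have hmul : ∀ v ∉ bad, ∀ g ∈ F, ∀ h ∈ F, σ (g * h) v = σ g (σ h v) := fun v hv => (hgood v hv).1
  have hone : ∀ v ∉ bad, σ 1 v = v := fun v hv => by
    have h1 := hmul v hv 1 (hUF 1 h1U) 1 (hUF 1 h1U)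
    rw [mul_one] at h1
    exact ((σ 1).injective h1).symm
  -- the rank
  set E : (Fin n → A) →ₗ[k] (Fin n → A) := LinearMap.id - (op k σ y).comp (op k σ x) with hE
  have hrank : Module.finrank k (LinearMap.range E) ≤ bad.card * d :=
    finrank_le σ hxy bad hone fun v hv g hg g' hg' => hmul v hv g (hUF g (hxU g hg)) g' (hUF g' (hyU g' hg'))
  have hEe : ∀ v ∉ bad, E (Pi.single v 1) = op k σ e (Pi.single v 1) := fun v hv => by
    rw [hE, LinearMap.sub_apply, LinearMap.id_apply, LinearMap.comp_apply,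
      op_mul σ y x v 1 fun g hg g' hg' => hmul v hv g (hUF g (hyU g hg)) g' (hUF g' (hxU g' hg')),
      he, op_sub, op_one σ (hone v hv)]
  set B : Finset (Fin n) := Finset.univ.filter fun v => v ∉ bad ∧ op k σ e (Pi.single v (1 : A)) ≠ 0
    with hB
  have hBcard : B.card ≤ (1 + m ^ 2) * (bad.card * d) := by
    refine (card_le_finrank σ e E B fun v hv => ?_).trans (Nat.mul_le_mul_left _ hrank)
    rw [hB, Finset.mem_filter] at hv
    exact ⟨hEe v hv.2.1, hv.2.2⟩
  -- a good point
  set Z : Finset (Fin n) := bad ∪ B with hZ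
  have hZcard : Z.card ≤ (1 + (1 + m ^ 2) * d) * bad.card := by
    refine (Finset.card_union_le _ _).trans ?_
    calc bad.card + B.card ≤ bad.card + (1 + m ^ 2) * (bad.card * d) := by omega
      _ = (1 + (1 + m ^ 2) * d) * bad.card := by ring
  obtain ⟨v, hv⟩ : ∃ v, v ∉ Z ∪ S.biUnion fun s => Z.image (σ s).symm := by
    by_contra hcon
    push Not at hcon
    have h1 : n ≤ (Z ∪ S.biUnion fun s => Z.image (σ s).symm).card := by
      have h2 : (Finset.univ : Finset (Fin n)) ⊆ Z ∪ S.biUnion fun s => Z.image (σ s).symm :=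
        fun v _ => hcon v
      have h3 := Finset.card_le_card h2
      rwa [Finset.card_univ, Fintype.card_fin] at h3
    have h2 : (S.biUnion fun s => Z.image (σ s).symm).card ≤ m * Z.card := by
      refine Finset.card_biUnion_le.trans ?_
      rw [hm, ← smul_eq_mul, ← Finset.sum_const]
      exact Finset.sum_le_sum fun s _ => Finset.card_image_le
    have h3 := Finset.card_union_le Z (S.biUnion fun s => Z.image (σ s).symm)
    have h4 : (1 + m) * Z.card ≤ D * bad.card := by
      rw [hD, mul_assoc]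
      exact Nat.mul_le_mul_left _ hZcard
    nlinarith
  rw [Finset.mem_union, not_or] at hv
  have hvZ : v ∉ Z := hv.1
  have hvS : ∀ s ∈ S, σ s v ∉ Z := fun s hs h => hv.2 (Finset.mem_biUnion.2 ⟨s, hs,
    Finset.mem_image.2 ⟨σ s v, h, Equiv.symm_apply_apply _ _⟩⟩)
  have hvbad : v ∉ bad := fun h => hvZ (Finset.mem_union_left _ h)
  obtain ⟨H, hH, hHF⟩ := (hgood v hvbad).2
  have hkill : ∀ s ∈ S, op k σ e (Pi.single (σ s v) (1 : A)) = 0 := by
    intro s hs
    by_contra h
    refine hvS s hs (Finset.mem_union_right _ ?_)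
    rw [hB, Finset.mem_filter]
    exact ⟨Finset.mem_univ _, fun h' => hvS s hs (Finset.mem_union_left _ h'), h⟩
  have hloc : ∀ u ∈ U, ∀ u' ∈ U, (QuotientGroup.mk u : G ⧸ H) = QuotientGroup.mk u' ↔
      σ u v = σ u' v := by
    intro u hu u' hu'
    rw [QuotientGroup.eq, ← hHF _ (hUF'' u hu u' hu')]
    constructor
    · intro h
      have h1 := hmul v hvbad u (hUF u hu) (u⁻¹ * u') (hUF'' u hu u' hu')
      rw [mul_inv_cancel_left, h] at h1
      exact h1.symm
    · intro h
      rw [hmul v hvbad u⁻¹ (hUF' u hu) u' (hUF u' hu'), ← h,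
        ← hmul v hvbad u⁻¹ (hUF' u hu) u (hUF u hu), inv_mul_cancel, hone v hvbad]
  refine he0 (eq_zero_of_hyp (a := 1 - e) ?_ S.card H hH (Nat.le_add_left _ _) (hyp_one_sub e H ?_))
  · have h1 : (1 - e) = y * x := by rw [he, sub_sub_cancel]
    rw [h1, he, mul_sub, mul_one, mul_assoc y x (y * x), ← mul_assoc x y x, hxy, one_mul, sub_self]
  · intro s hs c
    refine pr_eq_zero (k := k) σ e H s v (fun u hu u' hu' => ?_) (hkill s hs) c
    rw [hloc _ (hSSU u hu s hs) _ (hSSU u' hu' s hs),
      hmul v hvbad u (hUF u (hSU u hu)) s (hUF s (hSU s hs)),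
      hmul v hvbad u' (hUF u' (hSU u' hu')) s (hUF s (hSU s hs))]

end Pool.Agent.MP_03ceb7_al
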