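import Pool.Agent.Lib.MP_03ceb7_al.Mg.G004

/-!
# Monomially hyperlinear groups are approximable
-/

open Finset Filter Topology

set_option linter.unusedSectionVars false

namespace Pool.Agent.MP_03ceb7_al

/-- Approximations on arbitrary finite sets. -/
theorem approximable_of {p : ℕ} {G : Type*} [Group G]
    (h : ∀ (F : Finset G) (ε : ℝ), 0 < ε → ∃ (V : Type) (_ : Fintype V) (σ : G → Equiv.Perm V)
      (bad : Finset V), 0 < Fintype.card V ∧ (bad.card : ℝ) ≤ ε * Fintype.card V ∧
      ∀ v ∉ bad, (∀ g ∈ F, ∀ h ∈ F, σ (g * h) v = σ g (σ h v)) ∧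
        ∃ H : Subgroup G, LocallyIndicable p H ∧ ∀ g ∈ F, (σ g v = v ↔ g ∈ H)) :
    Approximable p G := by
  intro F ε hε
  obtain ⟨V, _, σ, bad, hV, hbad, hgood⟩ := h F ε hε
  let e := Fintype.equivFin V
  refine ⟨Fintype.card V, fun g => (e.symm.trans (σ g)).trans e, bad.map e.toEmbedding, hV, ?_, ?_⟩
  · rw [Finset.card_map]; exact hbad
  · intro v hv
    have hv' : e.symm v ∉ bad := by
      intro h1
      apply hv
      rw [Finset.mem_map]
      exact ⟨e.symm v, h1, e.apply_symm_apply v⟩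
    obtain ⟨h1, H, hH, h2⟩ := hgood _ hv'
    refine ⟨fun g hg h hh => ?_, H, hH, fun g hg => ?_⟩
    · simp only [Equiv.trans_apply, Equiv.symm_apply_apply]
      rw [h1 g hg h hh]
    · rw [← h2 g hg]
      simp only [Equiv.trans_apply]
      exact (Equiv.eq_symm_apply e).symm

/-- The number of maps to a set, all of whose values are in a subset. -/
theorem card_maps {m n : ℕ} (S : Finset (Fin n)) :
    (Fintype.piFinset fun _ : Fin m => S).card = S.card ^ m := by
  rw [Fintype.card_piFinset_const]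

/-- Amplification: the product action. -/
theorem amplify {G : Type*} [Group G] (F₂ : Finset G) {n : ℕ} (σ : G → Equiv.Perm (Fin n))
    (B : Finset (Fin n)) {c δ ε : ℝ} (m : ℕ) (hδ : (B.card : ℝ) ≤ δ * n)
    (hm : (F₂.card : ℝ) * (1 - c) ^ m + m * δ ≤ ε)
    (hmove : ∀ g ∈ F₂, c * n ≤ (cnt fun v => σ g v = v : ℝ)) :
    ∃ bad : Finset (Fin m → Fin n), (bad.card : ℝ) ≤ ε * Fintype.card (Fin m → Fin n) ∧
      ∀ v ∉ bad, (∀ j, v j ∉ B) ∧ ∀ g ∈ F₂, ∃ j, σ g (v j) ≠ v j := by
  classical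
  let A₁ : Finset (Fin m → Fin n) := Finset.univ \ Fintype.piFinset fun _ : Fin m => Bᶜ
  let A₂ : G → Finset (Fin m → Fin n) := fun g =>
    Fintype.piFinset fun _ : Fin m => Finset.univ.filter fun v => σ g v = v
  refine ⟨A₁ ∪ F₂.biUnion A₂, ?_, ?_⟩
  · have hcard : (Fintype.card (Fin m → Fin n) : ℝ) = (n : ℝ) ^ m := by
      rw [Fintype.card_fun, Fintype.card_fin, Fintype.card_fin, Nat.cast_pow]
    rw [hcard]
    have h1 : (A₁.card : ℝ) ≤ m * δ * (n : ℝ) ^ m := by
      have h2 : A₁.card = n ^ m - (Bᶜ).card ^ m := by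
        rw [Finset.card_sdiff_of_subset (Finset.subset_univ _), card_maps, Finset.card_univ,
          Fintype.card_fun, Fintype.card_fin, Fintype.card_fin]
      have h3 : (Bᶜ).card ^ m ≤ n ^ m := by
        refine Nat.pow_le_pow_left ?_ m
        have := Finset.card_le_univ Bᶜ
        rwa [Fintype.card_fin] at this
      rw [h2, Nat.cast_sub h3, Nat.cast_pow, Nat.cast_pow]
      have h4 : ((Bᶜ).card : ℝ) = n - B.card := by
        rw [Finset.card_compl, Fintype.card_fin, Nat.cast_sub]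
        have := Finset.card_le_univ B
        rwa [Fintype.card_fin] at this
      have hn0 : (0 : ℝ) ≤ n := Nat.cast_nonneg n
      rcases hn0.eq_or_lt with hn | hn
      · have h5 : n = 0 := by exact_mod_cast hn.symm
        subst h5
        rcases Nat.eq_zero_or_pos m with rfl | hm0
        · simp
        · have hB0 : ((Bᶜ).card : ℝ) = 0 := by
            have := Finset.card_le_univ Bᶜ
            rw [Fintype.card_fin] at this
            exact_mod_cast Nat.le_zero.1 this
          rw [hB0]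
          simp [hm0.ne']
      · have h5 : (1 - δ) * n ≤ ((Bᶜ).card : ℝ) := by rw [h4]; linarith
        by_cases hδ1 : δ ≤ 1
        · have h6 : ((1 - δ) * n) ^ m ≤ ((Bᶜ).card : ℝ) ^ m :=
            pow_le_pow_left₀ (mul_nonneg (by linarith) hn0) h5 m
          have h7 := one_add_mul_le_pow (a := -δ) (by linarith) m
          rw [mul_pow] at h6
          have h8 : (1 + (m : ℝ) * -δ) * (n : ℝ) ^ m ≤ (1 - δ) ^ m * (n : ℝ) ^ m := by
            refine mul_le_mul_of_nonneg_right ?_ (by positivity)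
            have : (1 : ℝ) + -δ = 1 - δ := by ring
            rwa [this] at h7
          have h9 : (n : ℝ) ^ m - ((Bᶜ).card : ℝ) ^ m ≤ (n : ℝ) ^ m - (1 + (m : ℝ) * -δ) * (n : ℝ) ^ m := by
            linarith
          refine h9.trans (le_of_eq ?_)
          ring
        · rcases Nat.eq_zero_or_pos m with rfl | hm0
          · simp
          · have h6 : (1 : ℝ) ≤ m := by exact_mod_cast hm0
            have h7 : (1 : ℝ) ≤ m * δ := by nlinarith
            have h8 : (0 : ℝ) ≤ ((Bᶜ).card : ℝ) ^ m := by positivity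
            have h9 : (0 : ℝ) ≤ (n : ℝ) ^ m := by positivity
            nlinarith
    have h2 : ∀ g ∈ F₂, ((A₂ g).card : ℝ) ≤ (1 - c) ^ m * (n : ℝ) ^ m := by
      intro g hg
      rw [card_maps, ← mul_pow, Nat.cast_pow]
      refine pow_le_pow_left₀ (Nat.cast_nonneg _) ?_ m
      have h3 := hmove g hg
      rw [cnt_eq] at h3
      have h4 := Finset.card_filter_add_card_filter_not (s := (Finset.univ : Finset (Fin n)))
        (fun v => σ g v = v)
      rw [Finset.card_univ, Fintype.card_fin] at h4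
      have h5 : (((Finset.univ : Finset (Fin n)).filter fun v => σ g v = v).card : ℝ) +
          ((Finset.univ : Finset (Fin n)).filter fun v => ¬ σ g v = v).card = n := by
        exact_mod_cast h4
      linarith
    have h3 : ((F₂.biUnion A₂).card : ℝ) ≤ F₂.card * ((1 - c) ^ m * (n : ℝ) ^ m) := by
      have h4 : ((F₂.biUnion A₂).card : ℝ) ≤ ∑ g ∈ F₂, ((A₂ g).card : ℝ) := by
        exact_mod_cast Finset.card_biUnion_le
      refine h4.trans ((Finset.sum_le_sum h2).trans ?_)
      rw [Finset.sum_const, nsmul_eq_mul]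
    have h4 : ((A₁ ∪ F₂.biUnion A₂).card : ℝ) ≤ A₁.card + (F₂.biUnion A₂).card := by
      exact_mod_cast Finset.card_union_le _ _
    have h5 : ((F₂.card : ℝ) * (1 - c) ^ m + m * δ) * (n : ℝ) ^ m ≤ ε * (n : ℝ) ^ m :=
      mul_le_mul_of_nonneg_right hm (by positivity)
    linarith
  · intro v hv
    rw [Finset.mem_union, not_or] at hv
    obtain ⟨hv1, hv2⟩ := hv
    refine ⟨?_, ?_⟩
    · intro j hj
      apply hv1
      rw [Finset.mem_sdiff]
      refine ⟨Finset.mem_univ _, fun h => ?_⟩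
      have := Fintype.mem_piFinset.1 h j
      rw [Finset.mem_compl] at this
      exact this hj
    · intro g hg
      by_contra hcon
      push Not at hcon
      apply hv2
      rw [Finset.mem_biUnion]
      refine ⟨g, hg, Fintype.mem_piFinset.2 fun j => ?_⟩
      rw [Finset.mem_filter]
      exact ⟨Finset.mem_univ _, hcon j⟩

section
variable {I : Type*} {U : Ultrafilter I} {n : I → ℕ}

theorem AA.true : AA U n fun _ _ => True := by
  intro η hη
  refine Filter.Eventually.of_forall fun i => ?_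
  have h1 : cnt (fun _ : Fin (n i) => True) = 0 := by
    rw [cnt]
    simp
  rw [h1, Nat.cast_zero]
  positivity

theorem AA.finset {α : Type*} (S : Finset α) {P : α → ∀ i, Fin (n i) → Prop}
    (h : ∀ a ∈ S, AA U n (P a)) : AA U n fun i v => ∀ a ∈ S, P a i v := by
  classical
  induction S using Finset.induction_on with
  | empty => exact AA.true.mono fun i v _ a ha => absurd ha (Finset.notMem_empty a)
  | insert a S _ ih =>
    refine ((h a (Finset.mem_insert_self _ _)).and
      (ih fun b hb => h b (Finset.mem_insert_of_mem hb))).mono fun i v hv b hb => ?_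
    rcases Finset.mem_insert.1 hb with rfl | hb
    · exact hv.1
    · exact hv.2 b hb

theorem AA.of_eventually {bad : ∀ i, Finset (Fin (n i))}
    (hb : ∀ η : ℝ, 0 < η → ∀ᶠ i in (U : Filter I), ((bad i).card : ℝ) ≤ η * n i)
    {P : ∀ i, Fin (n i) → Prop} (h : ∀ᶠ i in (U : Filter I), ∀ v ∉ bad i, P i v) : AA U n P := by
  intro η hη
  filter_upwards [hb η hη, h] with i h1 h2
  refine le_trans ?_ h1
  have h3 : cnt (P i) ≤ (bad i).card := by
    rw [cnt, ← Set.ncard_coe_finset]
    refine Set.ncard_le_ncard (fun v hv => ?_) (Set.toFinite _)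
    by_contra h4
    exact hv (h2 v h4)
  exact_mod_cast h3

end

/-- Monomially hyperlinear groups in which no nontrivial element of order prime to `p` has commuting
conjugates. -/
theorem approximable_of_monomial {p : ℕ} [Fact p.Prime] {G : Type*} [Group G]
    (hG : MonomiallyHyperlinear G)
    (ht : ∀ g : G, (∀ a b : G, Commute (a * g * a⁻¹) (b * g * b⁻¹)) → ∀ m : ℕ, ¬ p ∣ m → g ^ m = 1 →
      g = 1) :
    Approximable p G := by
  classical
  have hη1 : ∀ i : Finset G × ℕ, (0 : ℝ) < 1 / ((i.2 : ℝ) + 2) := fun i => by positivity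
  have hη2 : ∀ i : Finset G × ℕ, 1 / ((i.2 : ℝ) + 2) < 1 := fun i => by
    rw [div_lt_one (by positivity)]
    have : (0 : ℝ) ≤ i.2 := Nat.cast_nonneg _
    linarith
  choose n σ θ bad hn hθ hbad hmul htr using fun i : Finset G × ℕ =>
    exists_data hG i.1 (hη1 i) (hη2 i)
  let U : Ultrafilter (Finset G × ℕ) := Ultrafilter.of Filter.atTop
  have hU : (U : Filter (Finset G × ℕ)) ≤ Filter.atTop := Ultrafilter.of_le _
  have evF : ∀ g : G, ∀ᶠ i in (U : Filter (Finset G × ℕ)), g ∈ i.1 := fun g =>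
    hU ((Filter.eventually_ge_atTop (({g}, 0) : Finset G × ℕ)).mono fun i hi =>
      hi.1 (Finset.mem_singleton_self g))
  have evη : ∀ η : ℝ, 0 < η → ∀ᶠ i in (U : Filter (Finset G × ℕ)), 1 / ((i.2 : ℝ) + 2) ≤ η := by
    intro η hη
    obtain ⟨k, hk⟩ := exists_nat_one_div_lt hη
    refine hU ((Filter.eventually_ge_atTop ((∅, k) : Finset G × ℕ)).mono fun i hi => ?_)
    have h1 : k ≤ i.2 := hi.2
    have h2 : (k : ℝ) ≤ i.2 := by exact_mod_cast h1
    refine le_trans ?_ hk.le
    exact one_div_le_one_div_of_le (by positivity) (by linarith)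
  have hb : ∀ η : ℝ, 0 < η → ∀ᶠ i in (U : Filter (Finset G × ℕ)), ((bad i).card : ℝ) ≤ η * n i := by
    intro η hη
    filter_upwards [evη η hη] with i hi
    exact (hbad i).trans (mul_le_mul_of_nonneg_right hi (Nat.cast_nonneg _))
  have hM : ∀ g h, AA U n fun i v => σ i (g * h) v = σ i g (σ i h v) := fun g h =>
    AA.of_eventually hb (by
      filter_upwards [evF g, evF h] with i h1 h2 v hv
      exact (hmul i v hv g h1 h h2).1)
  have hM' : ∀ g h, ∀ η : ℝ, 0 < η →
      AA U n fun i v => ‖θ i (g * h) v - θ i g (σ i h v) * θ i h v‖ ≤ η := fun g h η hη =>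
    AA.of_eventually hb (by
      filter_upwards [evF g, evF h, evη η hη] with i h1 h2 h3 v hv
      exact ((hmul i v hv g h1 h h2).2).trans h3)
  have hT : ∀ g, g ≠ 1 → ∀ η : ℝ, 0 < η → ∀ᶠ i in (U : Filter (Finset G × ℕ)),
      ‖∑ v, if σ i g v = v then θ i g v else 0‖ ≤ η * n i := by
    intro g hg η hη
    filter_upwards [evF g, evη η hη] with i h1 h2
    exact (htr i g h1 hg).trans (mul_le_mul_of_nonneg_right h2 (Nat.cast_nonneg _))
  set N : Subgroup G := fixer hM with hN
  have hNcomm : ∀ g ∈ N, ∀ h ∈ N, g * h = h * g := fun g hg h hh =>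
    fixer_comm hn hM hθ hM' hT hg hh
  have hNind : LocallyIndicable p N :=
    locallyIndicable_of_comm hNcomm fun m g hg hm h =>
      ht g (fun a b => hNcomm _ ((fixer_normal hM).conj_mem g hg a) _
        ((fixer_normal hM).conj_mem g hg b)) m hm h
  refine approximable_of fun F ε hε => ?_
  set F₂ : Finset G := F.filter fun g => g ∉ N with hF₂
  -- a uniform lower bound for the moved points
  obtain ⟨c, hc0, hc1, hc⟩ : ∃ c : ℝ, 0 < c ∧ c ≤ 1 ∧ ∀ g ∈ F₂,
      ∀ᶠ i in (U : Filter (Finset G × ℕ)), c * n i ≤ (cnt fun v => σ i g v = v : ℝ) := by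
    have h1 : ∀ S : Finset G, S ⊆ F₂ → ∃ c : ℝ, 0 < c ∧ c ≤ 1 ∧ ∀ g ∈ S,
        ∀ᶠ i in (U : Filter (Finset G × ℕ)), c * n i ≤ (cnt fun v => σ i g v = v : ℝ) := by
      intro S
      induction S using Finset.induction_on with
      | empty => exact fun _ => ⟨1, one_pos, le_rfl, fun g hg => absurd hg (Finset.notMem_empty g)⟩
      | insert a S _ ih =>
        intro hS
        obtain ⟨c, hc0, hc1, hc⟩ := ih ((Finset.subset_insert a S).trans hS)
        have ha := (Finset.mem_filter.1 (hS (Finset.mem_insert_self a S))).2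
        obtain ⟨d, hd0, hd⟩ := not_AA (fun h => ha ((mem_fixer hM).2 h))
        refine ⟨min c d, lt_min hc0 hd0, (min_le_left _ _).trans hc1, fun g hg => ?_⟩
        rcases Finset.mem_insert.1 hg with rfl | hg
        · filter_upwards [hd] with i hi
          exact (mul_le_mul_of_nonneg_right (min_le_right _ _) (Nat.cast_nonneg _)).trans hi
        · filter_upwards [hc g hg] with i hi
          exact (mul_le_mul_of_nonneg_right (min_le_left _ _) (Nat.cast_nonneg _)).trans hi
    exact h1 F₂ (Finset.Subset.refl _)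
  obtain ⟨m, hm⟩ := exists_pow_lt_of_lt_one (show 0 < ε / (2 * ((F₂.card : ℝ) + 1)) by positivity)
    (show 1 - c < 1 by linarith)
  set δ : ℝ := ε / (2 * ((m : ℝ) + 1)) with hδ
  have hδ0 : 0 < δ := by positivity
  have hsum : (F₂.card : ℝ) * (1 - c) ^ m + m * δ ≤ ε := by
    have h1 : (F₂.card : ℝ) * (1 - c) ^ m ≤ ε / 2 := by
      have h2 : (F₂.card : ℝ) * (1 - c) ^ m ≤ F₂.card * (ε / (2 * ((F₂.card : ℝ) + 1))) :=
        mul_le_mul_of_nonneg_left hm.le (Nat.cast_nonneg _)
      refine h2.trans ?_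
      rw [mul_div_assoc', div_le_div_iff₀ (by positivity) (by norm_num)]
      nlinarith [Nat.cast_nonneg (α := ℝ) F₂.card]
    have h2 : (m : ℝ) * δ ≤ ε / 2 := by
      rw [hδ, mul_div_assoc', div_le_div_iff₀ (by positivity) (by norm_num)]
      nlinarith [Nat.cast_nonneg (α := ℝ) m]
    linarith
  have hP : AA U n fun i v => (∀ q ∈ F ×ˢ F, σ i (q.1 * q.2) v = σ i q.1 (σ i q.2 v)) ∧
      ∀ g ∈ F.filter fun g => g ∈ N, σ i g v = v :=
    (AA.finset (F ×ˢ F) fun q _ => hM q.1 q.2).and
      (AA.finset (F.filter fun g => g ∈ N) fun g hg => (mem_fixer hM).1 (Finset.mem_filter.1 hg).2)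
  obtain ⟨i, hi1, hi2⟩ := ((hP δ hδ0).and ((Filter.eventually_all_finset F₂).2 hc)).exists
  rw [cnt_eq] at hi1
  obtain ⟨bad', hbad', hgood'⟩ := amplify F₂ (σ i) _ m hi1 hsum hi2
  have : Nonempty (Fin (n i)) := ⟨⟨0, hn i⟩⟩
  refine ⟨Fin m → Fin (n i), inferInstance, fun g => Equiv.piCongrRight fun _ => σ i g, bad',
    Fintype.card_pos, hbad', fun v hv => ?_⟩
  obtain ⟨h1, h2⟩ := hgood' v hv
  have h3 : ∀ j, (∀ q ∈ F ×ˢ F, σ i (q.1 * q.2) (v j) = σ i q.1 (σ i q.2 (v j))) ∧
      ∀ g ∈ F.filter fun g => g ∈ N, σ i g (v j) = v j := by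
    intro j
    have h4 := h1 j
    rw [Finset.mem_filter] at h4
    by_contra h5
    exact h4 ⟨Finset.mem_univ _, h5⟩
  refine ⟨fun g hg h hh => ?_, N, hNind, fun g hg => ⟨fun h => ?_, fun h => ?_⟩⟩
  · funext j
    exact (h3 j).1 (g, h) (Finset.mem_product.2 ⟨hg, hh⟩)
  · by_contra hgN
    obtain ⟨j, hj⟩ := h2 g (Finset.mem_filter.2 ⟨hg, hgN⟩)
    exact hj (congrFun h j)
  · funext j
    exact (h3 j).2 g (Finset.mem_filter.2 ⟨hg, h⟩)

end Pool.Agent.MP_03ceb7_al
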