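import Pool.Agent.Lib.MP_03ceb7_al.Main

/-!
# Approximation by monomial unitary matrices: permutations and phases
-/

open Finset Matrix

set_option linter.unusedSectionVars false

namespace Pool.Agent.MP_03ceb7_al

/-- A monomial matrix: the product of a permutation matrix and a diagonal matrix, that is, the entry
`(i, j)` vanishes unless `i = τ j`, for some permutation `τ`. -/
def IsMonomial {n : ℕ} (M : Matrix (Fin n) (Fin n) ℂ) : Prop :=
  ∃ τ : Equiv.Perm (Fin n), ∀ i j, i ≠ τ j → M i j = 0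

/-- The group `G` is hyperlinear through monomial matrices: the definition of the problem, with the
unitary matrices restricted to the monomial ones. -/
def MonomiallyHyperlinear (G : Type*) [Group G] : Prop :=
  ∀ (F : Finset G) (ε : ℝ), 0 < ε →
    ∃ n : ℕ, 0 < n ∧ ∃ φ : G → Matrix (Fin n) (Fin n) ℂ,
      (∀ g, φ g ∈ Matrix.unitaryGroup (Fin n) ℂ ∧ IsMonomial (φ g)) ∧
      (∀ g ∈ F, ∀ h ∈ F, ∑ i, ∑ j, ‖(φ (g * h) - φ g * φ h) i j‖ ^ 2 < ε * (n : ℝ)) ∧
      (∀ g ∈ F, g ≠ 1 → ‖Matrix.trace (φ g)‖ < ε * (n : ℝ))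

/-- The permutations and phases of an approximation. -/
theorem exists_data {G : Type*} [Group G] (hG : MonomiallyHyperlinear G) (F : Finset G) {η : ℝ}
    (hη : 0 < η) (hη1 : η < 1) :
    ∃ (n : ℕ) (σ : G → Equiv.Perm (Fin n)) (θ : G → Fin n → ℂ) (bad : Finset (Fin n)), 0 < n ∧
      (∀ g v, ‖θ g v‖ = 1) ∧ (bad.card : ℝ) ≤ η * n ∧
      (∀ v ∉ bad, ∀ g ∈ F, ∀ h ∈ F, σ (g * h) v = σ g (σ h v) ∧
        ‖θ (g * h) v - θ g (σ h v) * θ h v‖ ≤ η) ∧
      ∀ g ∈ F, g ≠ 1 → ‖∑ v, if σ g v = v then θ g v else 0‖ ≤ η * n := by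
  classical
  set N : ℕ := F.card ^ 2 + 1 with hN
  have hN0 : (0 : ℝ) < N := by positivity
  set ε : ℝ := η ^ 3 / N with hε
  have hε0 : 0 < ε := by positivity
  obtain ⟨n, hn, φ, hφ, hmul, htr⟩ := hG F ε hε0
  choose σ hσ using fun g => (hφ g).2
  have hn0 : (0 : ℝ) < n := by exact_mod_cast hn
  let θ : G → Fin n → ℂ := fun g v => φ g (σ g v) v
  have hφθ : ∀ g i j, φ g i j = if i = σ g j then θ g j else 0 := by
    intro g i j
    by_cases h : i = σ g j
    · rw [if_pos h, h]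
    · rw [if_neg h, hσ g i j h]
  have hθ : ∀ g v, ‖θ g v‖ = 1 := by
    intro g v
    have h1 := (Matrix.mem_unitaryGroup_iff'.1 (hφ g).1)
    have h2 := congrFun (congrFun h1 v) v
    rw [Matrix.mul_apply, Matrix.one_apply_eq] at h2
    rw [Finset.sum_eq_single (σ g v)] at h2
    · rw [Matrix.star_apply] at h2
      have h3 : star (θ g v) * θ g v = 1 := h2
      have h4 := congrArg norm h3
      rw [norm_mul, norm_star, norm_one] at h4
      have h5 := norm_nonneg (θ g v)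
      nlinarith
    · intro i _ hi
      rw [hφθ g i v, if_neg hi, mul_zero]
    · intro h3
      exact absurd (Finset.mem_univ _) h3
  have hprod : ∀ g h i j, (φ g * φ h) i j = if i = σ g (σ h j) then θ g (σ h j) * θ h j else 0 := by
    intro g h i j
    rw [Matrix.mul_apply, Finset.sum_eq_single (σ h j)]
    · rw [hφθ g, hφθ h, if_pos rfl]
      split_ifs <;> simp
    · intro l _ hl
      rw [hφθ h, if_neg hl, mul_zero]
    · intro h3
      exact absurd (Finset.mem_univ _) h3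
  -- the bad columns of a pair
  let B : G × G → Finset (Fin n) := fun q => Finset.univ.filter fun j =>
    η < ‖(φ (q.1 * q.2) - φ q.1 * φ q.2) (σ (q.1 * q.2) j) j‖
  have hB : ∀ q ∈ F ×ˢ F, ((B q).card : ℝ) ≤ η / N * n := by
    intro q hq
    rw [Finset.mem_product] at hq
    have h1 := hmul q.1 hq.1 q.2 hq.2
    rw [Finset.sum_comm] at h1
    have h2 : ((B q).card : ℝ) * η ^ 2 ≤
        ∑ j, ∑ i, ‖(φ (q.1 * q.2) - φ q.1 * φ q.2) i j‖ ^ 2 := by
      calc ((B q).card : ℝ) * η ^ 2 = ∑ j ∈ B q, η ^ 2 := by rw [Finset.sum_const, nsmul_eq_mul]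
        _ ≤ ∑ j ∈ B q, ∑ i, ‖(φ (q.1 * q.2) - φ q.1 * φ q.2) i j‖ ^ 2 := by
          refine Finset.sum_le_sum fun j hj => ?_
          have h3 : η < ‖(φ (q.1 * q.2) - φ q.1 * φ q.2) (σ (q.1 * q.2) j) j‖ :=
            (Finset.mem_filter.1 hj).2
          calc η ^ 2 ≤ ‖(φ (q.1 * q.2) - φ q.1 * φ q.2) (σ (q.1 * q.2) j) j‖ ^ 2 :=
                pow_le_pow_left₀ hη.le h3.le 2
            _ ≤ _ := Finset.single_le_sum
                (f := fun i => ‖(φ (q.1 * q.2) - φ q.1 * φ q.2) i j‖ ^ 2)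
                (fun i _ => by positivity) (Finset.mem_univ _)
        _ ≤ _ := Finset.sum_le_sum_of_subset_of_nonneg (Finset.subset_univ _)
          fun j _ _ => Finset.sum_nonneg fun i _ => by positivity
    have h3 : ((B q).card : ℝ) * η ^ 2 ≤ (η / N * n) * η ^ 2 := by
      refine h2.trans (h1.le.trans (le_of_eq ?_))
      rw [hε]; ring
    exact le_of_mul_le_mul_right h3 (by positivity)
  refine ⟨n, σ, θ, (F ×ˢ F).biUnion B, hn, hθ, ?_, ?_, ?_⟩
  · have h1 : (((F ×ˢ F).biUnion B).card : ℝ) ≤ ∑ q ∈ F ×ˢ F, ((B q).card : ℝ) := by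
      exact_mod_cast Finset.card_biUnion_le
    refine h1.trans ((Finset.sum_le_sum hB).trans ?_)
    rw [Finset.sum_const, Finset.card_product, nsmul_eq_mul]
    have h2' : F.card * F.card ≤ N := by
      rw [hN, sq]; omega
    have h2 : ((F.card * F.card : ℕ) : ℝ) ≤ N := Nat.cast_le.2 h2'
    calc ((F.card * F.card : ℕ) : ℝ) * (η / N * n) ≤ N * (η / N * n) :=
          mul_le_mul_of_nonneg_right h2 (mul_nonneg (div_nonneg hη.le hN0.le) hn0.le)
      _ = η * n := by
          rw [← mul_assoc, mul_div_cancel₀ _ hN0.ne']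
  · intro v hv g hg h hh
    have h1 : v ∉ B (g, h) := fun h2 => hv (Finset.mem_biUnion.2
      ⟨(g, h), Finset.mem_product.2 ⟨hg, hh⟩, h2⟩)
    have h2 : ‖(φ (g * h) - φ g * φ h) (σ (g * h) v) v‖ ≤ η := by
      by_contra h3
      push Not at h3
      exact h1 (Finset.mem_filter.2 ⟨Finset.mem_univ _, h3⟩)
    rw [Matrix.sub_apply, hφθ, if_pos rfl, hprod] at h2
    by_cases h3 : σ (g * h) v = σ g (σ h v)
    · rw [if_pos h3] at h2
      exact ⟨h3, h2⟩
    · rw [if_neg h3, sub_zero, hθ] at h2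
      linarith
  · intro g hg hg1
    have h1 := (htr g hg hg1).le
    have h2 : Matrix.trace (φ g) = ∑ v, if σ g v = v then θ g v else 0 := by
      rw [Matrix.trace]
      refine Finset.sum_congr rfl fun v _ => ?_
      rw [Matrix.diag_apply, hφθ]
      by_cases h3 : σ g v = v
      · rw [if_pos h3.symm, if_pos h3]
      · rw [if_neg fun h4 => h3 h4.symm, if_neg h3]
    rw [← h2]
    refine h1.trans (mul_le_mul_of_nonneg_right ?_ hn0.le)
    rw [hε, div_le_iff₀ hN0]
    have h3' : 1 ≤ N := by rw [hN]; omega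
    have h3 : (1 : ℝ) ≤ N := by exact_mod_cast h3'
    have h4 : η ^ 3 ≤ η := by
      have : η ^ 2 ≤ 1 := by nlinarith
      nlinarith
    nlinarith

end Pool.Agent.MP_03ceb7_al
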