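import Mathlib

/-!
# Left regular elements of group algebras and locally `p`-indicable subgroups

Let `K` be a ring of prime characteristic `p` and `H` a subgroup of `G` all of whose nontrivial finitely
generated subgroups map onto `Z/p`. If `a * b = 0` in `K[G]` and `a` is injective on the part of the
permutation module `K[G/H]` spanned by the cosets which meet the support of `b`, then `b = 0`.
-/

open Finset MonoidAlgebra

namespace Pool.Agent.MP_03ceb7_al

variable {G : Type*} [Group G] {K : Type*} [Ring K]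

/-- The subgroup `H` is locally `p`-indicable: every nontrivial finitely generated subgroup of `H` has a
nontrivial homomorphism to the cyclic group of order `p`. -/
def LocallyIndicable (p : ℕ) (H : Subgroup G) : Prop :=
  ∀ M : Subgroup G, M ≤ H → M.FG → M ≠ ⊥ → ∃ χ : M →* Multiplicative (ZMod p), χ ≠ 1

theorem LocallyIndicable.mono {p : ℕ} {H H' : Subgroup G} (h : LocallyIndicable p H) (hH : H' ≤ H) :
    LocallyIndicable p H' :=
  fun M hM => h M (hM.trans hH)

/-- The image of an element of the group algebra in the permutation module `K[G/H]`. -/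
noncomputable def pr (H : Subgroup G) (c : MonoidAlgebra K G) : (G ⧸ H) →₀ K :=
  Finsupp.mapDomain (QuotientGroup.mk : G → G ⧸ H) c.coeff

theorem pr_add (H : Subgroup G) (c d : MonoidAlgebra K G) : pr H (c + d) = pr H c + pr H d := by
  rw [pr, MonoidAlgebra.coeff_add, Finsupp.mapDomain_add]; rfl

theorem pr_zero (H : Subgroup G) : pr H (0 : MonoidAlgebra K G) = 0 := by
  rw [pr, MonoidAlgebra.coeff_zero, Finsupp.mapDomain_zero]

theorem pr_sub (H : Subgroup G) (c d : MonoidAlgebra K G) : pr H (c - d) = pr H c - pr H d := by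
  have h : pr H c = pr H (c - d) + pr H d := by rw [← pr_add, sub_add_cancel]
  rw [h, add_sub_cancel_right]

theorem pr_single (H : Subgroup G) (g : G) (k : K) :
    pr H (single g k) = Finsupp.single (QuotientGroup.mk g) k := by
  rw [pr, MonoidAlgebra.coeff_single, Finsupp.mapDomain_single]

theorem pr_single_mul (H : Subgroup G) (y : G) (k : K) (c : MonoidAlgebra K G) (g : G) :
    pr H (single y k * c) (QuotientGroup.mk g) = k * pr H c (QuotientGroup.mk (y⁻¹ * g)) := by
  classical
  induction c using MonoidAlgebra.induction_linear with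
  | zero => rw [mul_zero, pr_zero]; simp
  | add f g hf hg => rw [mul_add, pr_add, pr_add, Finsupp.add_apply, Finsupp.add_apply, hf, hg, mul_add]
  | single x r =>
    rw [MonoidAlgebra.single_mul_single, pr_single, pr_single, Finsupp.single_apply,
      Finsupp.single_apply]
    have h : ((QuotientGroup.mk (y * x) : G ⧸ H) = QuotientGroup.mk g) ↔
        ((QuotientGroup.mk x : G ⧸ H) = QuotientGroup.mk (y⁻¹ * g)) := by
      rw [QuotientGroup.eq, QuotientGroup.eq]
      simp only [mul_inv_rev, mul_assoc]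
    by_cases h1 : (QuotientGroup.mk x : G ⧸ H) = QuotientGroup.mk (y⁻¹ * g)
    · rw [if_pos (h.2 h1), if_pos h1]
    · rw [if_neg fun h2 => h1 (h.1 h2), if_neg h1, mul_zero]

theorem pr_mul (H : Subgroup G) (a c : MonoidAlgebra K G) (g : G) :
    pr H (a * c) (QuotientGroup.mk g) =
      a.coeff.sum fun y k => k * pr H c (QuotientGroup.mk (y⁻¹ * g)) := by
  induction a using MonoidAlgebra.induction_linear with
  | zero => rw [zero_mul, pr_zero]; simp
  | add f g hf hg =>
    rw [add_mul, pr_add, Finsupp.add_apply, hf, hg, MonoidAlgebra.coeff_add,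
      Finsupp.sum_add_index' (by simp) (by intros; rw [add_mul])]
  | single x r =>
    rw [pr_single_mul, MonoidAlgebra.coeff_single, Finsupp.sum_single_index (by simp)]

theorem pr_mul_single (H : Subgroup G) (c : MonoidAlgebra K G) {t : G}
    (ht : ∀ h, t⁻¹ * h * t ∈ H ↔ h ∈ H) (g : G) :
    pr H (c * single t 1) (QuotientGroup.mk (g * t)) = pr H c (QuotientGroup.mk g) := by
  classical
  induction c using MonoidAlgebra.induction_linear with
  | zero => rw [zero_mul, pr_zero]; simp
  | add f g hf hg => rw [add_mul, pr_add, pr_add, Finsupp.add_apply, Finsupp.add_apply, hf, hg]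
  | single x r =>
    rw [MonoidAlgebra.single_mul_single, pr_single, pr_single, Finsupp.single_apply,
      Finsupp.single_apply, mul_one]
    have h : ((QuotientGroup.mk (x * t) : G ⧸ H) = QuotientGroup.mk (g * t)) ↔
        ((QuotientGroup.mk x : G ⧸ H) = QuotientGroup.mk g) := by
      rw [QuotientGroup.eq, QuotientGroup.eq, ← ht (x⁻¹ * g)]
      simp only [mul_inv_rev, mul_assoc]
    by_cases h1 : (QuotientGroup.mk x : G ⧸ H) = QuotientGroup.mk g
    · rw [if_pos (h.2 h1), if_pos h1]
    · rw [if_neg fun h2 => h1 (h.1 h2), if_neg h1]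

theorem pr_mul_single_mem (H : Subgroup G) (c : MonoidAlgebra K G) {t : G} (ht : t ∈ H) :
    pr H (c * single t 1) = pr H c := by
  induction c using MonoidAlgebra.induction_linear with
  | zero => rw [zero_mul]
  | add f g hf hg => rw [add_mul, pr_add, pr_add, hf, hg]
  | single x r =>
    rw [MonoidAlgebra.single_mul_single, pr_single, pr_single, mul_one]
    congr 1
    rw [QuotientGroup.eq, mul_inv_rev, mul_assoc, inv_mul_cancel, mul_one]
    exact H.inv_mem ht

theorem pr_of_le {H₀ H : Subgroup G} (h : H₀ ≤ H) (c : MonoidAlgebra K G) :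
    pr H c = Finsupp.mapDomain (Subgroup.quotientMapOfLE h) (pr H₀ c) := by
  rw [pr, pr, ← Finsupp.mapDomain_comp]
  rfl

/-- The element `a` is injective on the span of the cosets of `H` which meet `S`. -/
def Hyp (a : MonoidAlgebra K G) (H : Subgroup G) (S : Finset G) : Prop :=
  ∀ c : MonoidAlgebra K G,
    (∀ g ∈ c.coeff.support, ∃ s ∈ S, (QuotientGroup.mk g : G ⧸ H) = QuotientGroup.mk s) →
      pr H (a * c) = 0 → pr H c = 0

theorem pr_ne_zero_mem {H : Subgroup G} {c : MonoidAlgebra K G} {g : G}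
    (h : pr H c (QuotientGroup.mk g) ≠ 0) :
    ∃ x ∈ c.coeff.support, (QuotientGroup.mk x : G ⧸ H) = QuotientGroup.mk g := by
  classical
  have h1 : (QuotientGroup.mk g : G ⧸ H) ∈ (pr H c).support := Finsupp.mem_support_iff.2 h
  have h2 := Finsupp.mapDomain_support h1
  rw [Finset.mem_image] at h2
  exact h2

theorem eq_zero_of_injOn {α β : Type*} {f : α → β} {v : α →₀ K} {T : Set α} (hf : Set.InjOn f T)
    (hv : ∀ x ∈ v.support, x ∈ T) (h : Finsupp.mapDomain f v = 0) : v = 0 := by
  have h1 := Finsupp.mapDomain_injOn (M := K) T hf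
  apply h1 (fun x hx => hv x hx) (fun x hx => ?_) (by rw [h, Finsupp.mapDomain_zero])
  simp at hx

/-- First step: from `H` to a smaller subgroup which has the same cosets at the points of `S`. -/
theorem Hyp.mono {a : MonoidAlgebra K G} {H₀ H : Subgroup G} {S : Finset G} (h : Hyp a H S)
    (hle : H₀ ≤ H) (hS : ∀ s ∈ S, ∀ s' ∈ S, (QuotientGroup.mk s : G ⧸ H) = QuotientGroup.mk s' →
      (QuotientGroup.mk s : G ⧸ H₀) = QuotientGroup.mk s') : Hyp a H₀ S := by
  intro c hc hac
  have h1 : pr H c = 0 := by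
    refine h c (fun g hg => ?_) ?_
    · obtain ⟨s, hs, hgs⟩ := hc g hg
      refine ⟨s, hs, ?_⟩
      rw [QuotientGroup.eq] at hgs ⊢
      exact hle hgs
    · rw [pr_of_le hle, hac, Finsupp.mapDomain_zero]
  rw [pr_of_le hle] at h1
  refine eq_zero_of_injOn (T := {q | ∃ s ∈ S, q = QuotientGroup.mk s}) ?_ ?_ h1
  · rintro _ ⟨s, hs, rfl⟩ _ ⟨s', hs', rfl⟩ he
    exact hS s hs s' hs' he
  · intro q hq
    induction q using QuotientGroup.induction_on with
    | H g =>
      obtain ⟨x, hx, hxg⟩ := pr_ne_zero_mem (Finsupp.mem_support_iff.1 hq)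
      obtain ⟨s, hs, hxs⟩ := hc x hx
      exact ⟨s, hs, by rw [← hxg, hxs]⟩

section Step

variable {p : ℕ} [Fact p.Prime] [CharP K p] {H₀ H₁ : Subgroup G} {t : G}

/-- If `H₁ ≤ H₀`, `t ∈ H₀` normalises `H₁`, `t ^ p ∈ H₁` and `H₀` is generated by `H₁` and `t`, then
injectivity passes from `H₀` to `H₁`. -/
theorem Hyp.step {a : MonoidAlgebra K G} {S : Finset G} (h : Hyp a H₀ S) (hle : H₁ ≤ H₀)
    (ht : t ∈ H₀) (hn : ∀ h, t⁻¹ * h * t ∈ H₁ ↔ h ∈ H₁) (hp : t ^ p ∈ H₁)
    (hgen : ∀ h ∈ H₀, ∃ i : ℕ, (t ^ i)⁻¹ * h ∈ H₁) : Hyp a H₁ S := by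
  classical
  intro c hc hac
  by_contra hcon
  -- the operator `z ↦ z * (t - 1)`
  set D : MonoidAlgebra K G := single t 1 - 1 with hD
  have hzero : ∀ z : MonoidAlgebra K G, pr H₁ z = 0 → pr H₁ (z * D) = 0 := by
    intro z hz
    rw [hD, mul_sub, mul_one, pr_sub, hz, sub_zero]
    ext q
    induction q using QuotientGroup.induction_on with
    | H g =>
      have h1 := pr_mul_single H₁ z hn (g * t⁻¹)
      rw [inv_mul_cancel_right, hz] at h1
      exact h1
  have hzero' : ∀ (z : MonoidAlgebra K G) (k : ℕ), pr H₁ z = 0 → pr H₁ (z * D ^ k) = 0 := by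
    intro z k hz
    induction k with
    | zero => rwa [pow_zero, mul_one]
    | succ k ih => rw [pow_succ, ← mul_assoc]; exact hzero _ ih
  have hcharp : D ^ p = single (t ^ p) 1 - 1 := by
    have : CharP (MonoidAlgebra K G) p :=
      charP_of_injective_ringHom (f := (singleOneRingHom : K →+* MonoidAlgebra K G))
        (fun x y hxy => single_right_injective hxy) p
    rw [hD, sub_pow_char_of_commute (p := p) (Commute.one_right _), one_pow, single_pow, one_pow]
  have hDp : pr H₁ (c * D ^ p) = 0 := by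
    rw [hcharp, mul_sub, mul_one, pr_sub, pr_mul_single_mem H₁ c hp, sub_self]
  have hex : ∃ k, pr H₁ (c * D ^ k) = 0 := ⟨p, hDp⟩
  obtain ⟨k, hk, hk'⟩ : ∃ k, pr H₁ (c * D ^ k) ≠ 0 ∧ pr H₁ (c * D ^ (k + 1)) = 0 := by
    have h0 : Nat.find hex ≠ 0 := by
      intro h1
      have h2 := Nat.find_spec hex
      rw [h1, pow_zero, mul_one] at h2
      exact hcon h2
    obtain ⟨k, hk⟩ := Nat.exists_eq_succ_of_ne_zero h0
    refine ⟨k, Nat.find_min hex (by omega), ?_⟩
    have h2 := Nat.find_spec hex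
    rwa [hk] at h2
  set d : MonoidAlgebra K G := c * D ^ k with hd
  have hdR : pr H₁ (d * single t 1) = pr H₁ d := by
    rw [pow_succ, ← mul_assoc, ← hd] at hk'
    rw [hD, mul_sub, mul_one, pr_sub, sub_eq_zero] at hk'
    exact hk'
  have had : pr H₁ (a * d) = 0 := by
    rw [hd, ← mul_assoc]
    exact hzero' _ k hac
  -- cosets of `H₀`
  have hcos : ∀ z : MonoidAlgebra K G,
      (∀ g ∈ z.coeff.support, ∃ s ∈ S, (QuotientGroup.mk g : G ⧸ H₀) = QuotientGroup.mk s) →
      ∀ g ∈ (z * D).coeff.support, ∃ s ∈ S, (QuotientGroup.mk g : G ⧸ H₀) = QuotientGroup.mk s := by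
    intro z hz g hg
    rw [hD, mul_sub, mul_one] at hg
    by_cases h1 : g ∈ z.coeff.support
    · exact hz g h1
    · have h2 : g * t⁻¹ ∈ z.coeff.support := by
        rw [Finsupp.notMem_support_iff] at h1
        rw [Finsupp.mem_support_iff] at hg ⊢
        have h3 : (z * single t 1 - z).coeff g = z.coeff (g * t⁻¹) - z.coeff g := by
          rw [coeff_sub, Finsupp.sub_apply, coeff_mul_single_apply, mul_one]
        rw [h3, h1, sub_zero] at hg
        exact hg
      obtain ⟨s, hs, hgs⟩ := hz _ h2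
      refine ⟨s, hs, ?_⟩
      rw [← hgs, QuotientGroup.eq, ← mul_assoc, inv_mul_cancel, one_mul]
      exact H₀.inv_mem ht
  have hcosd : ∀ g ∈ d.coeff.support, ∃ s ∈ S, (QuotientGroup.mk g : G ⧸ H₀) = QuotientGroup.mk s := by
    have h1 : ∀ i : ℕ, ∀ g ∈ (c * D ^ i).coeff.support, ∃ s ∈ S,
        (QuotientGroup.mk g : G ⧸ H₀) = QuotientGroup.mk s := by
      intro i
      induction i with
      | zero =>
        intro g hg
        rw [pow_zero, mul_one] at hg
        obtain ⟨s, hs, hgs⟩ := hc g hg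
        refine ⟨s, hs, ?_⟩
        rw [QuotientGroup.eq] at hgs ⊢
        exact hle hgs
      | succ i ih =>
        intro g hg
        rw [pow_succ, ← mul_assoc] at hg
        exact hcos _ ih g hg
    exact h1 k
  -- invariance
  set w : G → K := fun g => pr H₁ d (QuotientGroup.mk g) with hw
  have hw1 : ∀ g, ∀ x ∈ H₁, w (g * x) = w g := by
    intro g x hx
    have h1 : (QuotientGroup.mk (g * x) : G ⧸ H₁) = QuotientGroup.mk g := by
      rw [QuotientGroup.eq, mul_inv_rev, mul_assoc, inv_mul_cancel, mul_one]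
      exact H₁.inv_mem hx
    change pr H₁ d (QuotientGroup.mk (g * x)) = pr H₁ d (QuotientGroup.mk g)
    rw [h1]
  have hwt : ∀ g, w (g * t) = w g := by
    intro g
    have h1 := pr_mul_single H₁ d hn g
    rw [hdR] at h1
    exact h1
  have hwi : ∀ i : ℕ, ∀ g, w (g * t ^ i) = w g := by
    intro i
    induction i with
    | zero => intro g; rw [pow_zero, mul_one]
    | succ i ih => intro g; rw [pow_succ, ← mul_assoc, hwt, ih]
  have hw0 : ∀ g, ∀ x ∈ H₀, w (g * x) = w g := by
    intro g x hx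
    obtain ⟨i, hi⟩ := hgen x hx
    have h1 := hw1 (g * t ^ i) _ hi
    rw [mul_assoc, mul_inv_cancel_left, hwi] at h1
    exact h1
  -- the descended element
  let uf : G ⧸ H₀ → K := fun q => Quotient.liftOn' q w fun x y hxy => by
    have h1 := hw0 x _ (QuotientGroup.leftRel_apply.1 hxy)
    rw [mul_inv_cancel_left] at h1
    exact h1.symm
  let u : (G ⧸ H₀) →₀ K := Finsupp.onFinset (d.coeff.support.image QuotientGroup.mk) uf (by
    intro q hq
    induction q using QuotientGroup.induction_on with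
    | H g =>
      have h1 : pr H₁ d (QuotientGroup.mk g) ≠ 0 := hq
      obtain ⟨x, hx, hxg⟩ := pr_ne_zero_mem h1
      rw [Finset.mem_image]
      refine ⟨x, hx, ?_⟩
      rw [QuotientGroup.eq] at hxg ⊢
      exact hle hxg)
  have hu : ∀ g, u (QuotientGroup.mk g) = w g := fun g => rfl
  let d' : MonoidAlgebra K G := MonoidAlgebra.ofCoeff (Finsupp.mapDomain Quotient.out u)
  have hd' : pr H₀ d' = u := by
    change Finsupp.mapDomain _ (Finsupp.mapDomain _ u) = u
    rw [← Finsupp.mapDomain_comp]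
    have h1 : (QuotientGroup.mk : G → G ⧸ H₀) ∘ Quotient.out = id := by
      funext q
      exact QuotientGroup.out_eq' q
    rw [h1, Finsupp.mapDomain_id]
  have hu0 : u = 0 := by
    rw [← hd']
    refine h d' (fun g hg => ?_) ?_
    · have h1 : g ∈ (Finsupp.mapDomain Quotient.out u).support := hg
      have h2 := Finsupp.mapDomain_support h1
      rw [Finset.mem_image] at h2
      obtain ⟨q, hq, rfl⟩ := h2
      induction q using QuotientGroup.induction_on with
      | H g =>
        have h0 : u (QuotientGroup.mk g) ≠ 0 := Finsupp.mem_support_iff.1 hq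
        have h1 : pr H₁ d (QuotientGroup.mk g) ≠ 0 := h0
        obtain ⟨x, hx, hxg⟩ := pr_ne_zero_mem h1
        obtain ⟨s, hs, hxs⟩ := hcosd x hx
        refine ⟨s, hs, ?_⟩
        rw [QuotientGroup.out_eq', ← hxs]
        rw [QuotientGroup.eq] at hxg ⊢
        have h3 := H₀.inv_mem (hle hxg)
        rwa [mul_inv_rev, inv_inv] at h3
    · ext q
      induction q using QuotientGroup.induction_on with
      | H g =>
        rw [pr_mul, hd']
        have h1 := pr_mul H₁ a d g
        rw [had] at h1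
        exact h1.symm
  refine hk ?_
  ext q
  induction q using QuotientGroup.induction_on with
  | H g =>
    have h1 := hu g
    rw [hu0] at h1
    exact h1.symm

end Step

open Classical in
/-- The image of the finite set `S` in the set of left cosets of `H`. -/
noncomputable def cos (S : Finset G) (H : Subgroup G) : Finset (G ⧸ H) :=
  S.image QuotientGroup.mk

theorem mem_cos {S : Finset G} {H : Subgroup G} {q : G ⧸ H} :
    q ∈ cos S H ↔ ∃ s ∈ S, QuotientGroup.mk s = q := by
  classical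
  rw [cos, Finset.mem_image]

theorem card_cos_le {S : Finset G} {H : Subgroup G} : (cos S H).card ≤ S.card := by
  classical
  rw [cos]
  exact Finset.card_image_le

theorem card_cos_lt {S : Finset G} {H₁ H : Subgroup G} (hle : H₁ ≤ H) {s s' : G} (hs : s ∈ S)
    (hs' : s' ∈ S) (h : (QuotientGroup.mk s : G ⧸ H) = QuotientGroup.mk s')
    (h1 : (QuotientGroup.mk s : G ⧸ H₁) ≠ QuotientGroup.mk s') :
    (cos S H).card < (cos S H₁).card := by
  classical
  have h2 : cos S H = (cos S H₁).image (Subgroup.quotientMapOfLE hle) := by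
    ext q
    rw [mem_cos, Finset.mem_image]
    constructor
    · rintro ⟨x, hx, rfl⟩
      exact ⟨QuotientGroup.mk x, mem_cos.2 ⟨x, hx, rfl⟩, rfl⟩
    · rintro ⟨q', hq', rfl⟩
      obtain ⟨x, hx, rfl⟩ := mem_cos.1 hq'
      exact ⟨x, hx, rfl⟩
  rw [h2]
  refine lt_of_le_of_ne Finset.card_image_le fun h3 => h1 ?_
  rw [Finset.card_image_iff] at h3
  exact h3 (mem_cos.2 ⟨s, hs, rfl⟩) (mem_cos.2 ⟨s', hs', rfl⟩) h

theorem mult_pow (p : ℕ) (y : Multiplicative (ZMod p)) : y ^ p = 1 := by
  apply Multiplicative.toAdd.injective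
  rw [toAdd_pow, toAdd_one, nsmul_eq_mul, CharP.cast_eq_zero, zero_mul]

theorem exists_pow_eq (p : ℕ) [Fact p.Prime] {x : Multiplicative (ZMod p)} (hx : x ≠ 1)
    (y : Multiplicative (ZMod p)) : ∃ i : ℕ, x ^ i = y := by
  have hx0 : Multiplicative.toAdd x ≠ 0 := fun h => hx (Multiplicative.toAdd.injective h)
  refine ⟨(Multiplicative.toAdd y * (Multiplicative.toAdd x)⁻¹).val, ?_⟩
  apply Multiplicative.toAdd.injective
  rw [toAdd_pow, nsmul_eq_mul, ZMod.natCast_zmod_val, mul_assoc, inv_mul_cancel₀ hx0, mul_one]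

/-- The main lemma. -/
theorem eq_zero_of_hyp {p : ℕ} [Fact p.Prime] [CharP K p] {a b : MonoidAlgebra K G}
    (hab : a * b = 0) :
    ∀ (n : ℕ) (H : Subgroup G), LocallyIndicable p H →
      b.coeff.support.card ≤ (cos b.coeff.support H).card + n →
      Hyp a H b.coeff.support → b = 0 := by
  classical
  set S : Finset G := b.coeff.support with hS
  intro n
  induction n with
  | zero =>
    intro H _ hn hyp
    have h1 : pr H b = 0 := hyp b (fun g hg => ⟨g, hg, rfl⟩) (by rw [hab, pr_zero])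
    have h2 : (S.image (QuotientGroup.mk : G → G ⧸ H)).card = S.card := by
      refine le_antisymm Finset.card_image_le ?_
      rw [add_zero] at hn
      rw [cos] at hn
      exact hn
    rw [Finset.card_image_iff] at h2
    have h3 : b.coeff = 0 := eq_zero_of_injOn h2 (fun x hx => hx) h1
    exact coeff_eq_zero.1 h3
  | succ n ih =>
    intro H hH hn hyp
    by_cases hinj : Set.InjOn (QuotientGroup.mk : G → G ⧸ H) (S : Set G)
    · have h1 : pr H b = 0 := hyp b (fun g hg => ⟨g, hg, rfl⟩) (by rw [hab, pr_zero])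
      have h3 : b.coeff = 0 := eq_zero_of_injOn hinj (fun x hx => hx) h1
      exact coeff_eq_zero.1 h3
    -- representatives
    have hrep : ∀ q : G ⧸ H, ∃ x, q ∈ cos S H → x ∈ S ∧ QuotientGroup.mk x = q := by
      intro q
      by_cases hq : q ∈ cos S H
      · obtain ⟨x, hx, hxq⟩ := mem_cos.1 hq
        exact ⟨x, fun _ => ⟨hx, hxq⟩⟩
      · exact ⟨1, fun h => absurd h hq⟩
    choose ρ hρ using hrep
    have hρS : ∀ s ∈ S, ρ (QuotientGroup.mk s) ∈ S := fun s hs =>
      (hρ _ (mem_cos.2 ⟨s, hs, rfl⟩)).1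
    have hρH : ∀ s ∈ S, (ρ (QuotientGroup.mk s))⁻¹ * s ∈ H := fun s hs => by
      rw [← QuotientGroup.eq]
      exact (hρ _ (mem_cos.2 ⟨s, hs, rfl⟩)).2
    set T : Set G := {x | ∃ s ∈ S, x = (ρ (QuotientGroup.mk s : G ⧸ H))⁻¹ * s} with hT
    have hTfin : T.Finite := by
      have h1 : T ⊆ (S.image fun s => (ρ (QuotientGroup.mk s : G ⧸ H))⁻¹ * s : Finset G) := by
        rintro x ⟨s, hs, rfl⟩
        exact Finset.mem_coe.2 (Finset.mem_image.2 ⟨s, hs, rfl⟩)
      exact (Finset.finite_toSet _).subset h1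
    set H₀ : Subgroup G := Subgroup.closure T with hH₀
    have hH₀le : H₀ ≤ H := by
      rw [hH₀, Subgroup.closure_le]
      rintro x ⟨s, hs, rfl⟩
      exact hρH s hs
    have hH₀fg : H₀.FG := ⟨hTfin.toFinset, by rw [Set.Finite.coe_toFinset]⟩
    have hH₀ne : H₀ ≠ ⊥ := by
      intro h0
      apply hinj
      intro s hs s' hs' hss
      have h1 : ∀ x ∈ T, x = 1 := by
        intro x hx
        have h2 : x ∈ H₀ := Subgroup.subset_closure hx
        rw [h0, Subgroup.mem_bot] at h2
        exact h2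
      have h2 := h1 _ ⟨s, hs, rfl⟩
      have h3 := h1 _ ⟨s', hs', rfl⟩
      rw [inv_mul_eq_one] at h2 h3
      rw [← h2, ← h3, hss]
    have hyp0 : Hyp a H₀ S := by
      refine hyp.mono hH₀le fun s hs s' hs' hss => ?_
      have h1 : ∀ s ∈ S, (QuotientGroup.mk (ρ (QuotientGroup.mk s : G ⧸ H)) : G ⧸ H₀) =
          QuotientGroup.mk s := by
        intro s hs
        rw [QuotientGroup.eq]
        exact Subgroup.subset_closure ⟨s, hs, rfl⟩
      rw [← h1 s hs, ← h1 s' hs', hss]
    obtain ⟨χ, hχ⟩ := hH H₀ hH₀le hH₀fg hH₀ne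
    set H₁ : Subgroup G := χ.ker.map H₀.subtype with hH₁
    have hmem : ∀ (x : G) (hx : x ∈ H₀), x ∈ H₁ ↔ χ ⟨x, hx⟩ = 1 := by
      intro x hx
      rw [hH₁, Subgroup.mem_map]
      constructor
      · rintro ⟨y, hy, rfl⟩
        exact hy
      · intro h
        exact ⟨⟨x, hx⟩, h, rfl⟩
    have hH₁le : H₁ ≤ H₀ := by
      rintro x ⟨y, hy, rfl⟩
      exact y.2
    obtain ⟨t, ht⟩ : ∃ t : H₀, χ t ≠ 1 := by
      by_contra hcon
      push Not at hcon
      exact hχ (MonoidHom.ext hcon)
    have hstep : Hyp a H₁ S := by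
      refine hyp0.step (t := (t : G)) hH₁le t.2 (fun h => ?_) ?_ (fun h hh => ?_)
      · constructor
        · intro h1
          have h2 : h ∈ H₀ := by
            have h3 := H₀.mul_mem (H₀.mul_mem t.2 (hH₁le h1)) (H₀.inv_mem t.2)
            have h4 : (t : G) * ((t : G)⁻¹ * h * t) * (t : G)⁻¹ = h := by group
            rwa [h4] at h3
          rw [hmem h h2]
          have h5 := (hmem _ (H₀.mul_mem (H₀.mul_mem (H₀.inv_mem t.2) h2) t.2)).1 h1
          have h6 : (⟨(t : G)⁻¹ * h * t, H₀.mul_mem (H₀.mul_mem (H₀.inv_mem t.2) h2) t.2⟩ : H₀) =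
              t⁻¹ * ⟨h, h2⟩ * t := rfl
          rw [h6, map_mul, map_mul, map_inv, mul_comm, mul_inv_cancel_left] at h5
          exact h5
        · intro h1
          have h2 := hH₁le h1
          rw [hmem _ (H₀.mul_mem (H₀.mul_mem (H₀.inv_mem t.2) h2) t.2)]
          have h6 : (⟨(t : G)⁻¹ * h * t, H₀.mul_mem (H₀.mul_mem (H₀.inv_mem t.2) h2) t.2⟩ : H₀) =
              t⁻¹ * ⟨h, h2⟩ * t := rfl
          rw [h6, map_mul, map_mul, map_inv, mul_comm, mul_inv_cancel_left]
          exact (hmem h h2).1 h1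
      · rw [hmem _ (H₀.pow_mem t.2 p)]
        have h6 : (⟨(t : G) ^ p, H₀.pow_mem t.2 p⟩ : H₀) = t ^ p := rfl
        rw [h6, map_pow]
        exact mult_pow p _
      · obtain ⟨i, hi⟩ := exists_pow_eq p ht (χ ⟨h, hh⟩)
        refine ⟨i, ?_⟩
        rw [hmem _ (H₀.mul_mem (H₀.inv_mem (H₀.pow_mem t.2 i)) hh)]
        have h6 : (⟨((t : G) ^ i)⁻¹ * h, H₀.mul_mem (H₀.inv_mem (H₀.pow_mem t.2 i)) hh⟩ : H₀) =
            (t ^ i)⁻¹ * ⟨h, hh⟩ := rfl
        rw [h6, map_mul, map_inv, map_pow, hi, inv_mul_cancel]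
    -- more cosets
    obtain ⟨s, hs, hs1⟩ : ∃ s ∈ S, (ρ (QuotientGroup.mk s : G ⧸ H))⁻¹ * s ∉ H₁ := by
      by_contra hcon
      push Not at hcon
      have h1 : H₀ ≤ H₁ := by
        rw [hH₀, Subgroup.closure_le]
        rintro x ⟨s, hs, rfl⟩
        exact hcon s hs
      exact ht ((hmem t t.2).1 (h1 t.2))
    refine ih H₁ (hH.mono (hH₁le.trans hH₀le)) ?_ hstep
    have h1 : (cos S H).card < (cos S H₁).card := by
      refine card_cos_lt (hH₁le.trans hH₀le) (hρS s hs) hs ?_ ?_
      · exact (hρ _ (mem_cos.2 ⟨s, hs, rfl⟩)).2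
      · intro h2
        rw [QuotientGroup.eq] at h2
        exact hs1 h2
    omega

end Pool.Agent.MP_03ceb7_al
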